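import Pool.Agent.H921Z.Loop.Engel

set_option autoImplicit false

namespace Pool.Agent.Results.MP_20a840_al.AMiddleNucleus

/-- Every automorphic loop of order `p ^ k`, `k ≥ 1`, has a nontrivial middle nucleus.
The hypotheses `hL`, `hR`, `hT` say that the inner mappings `L_{xy}⁻¹ L_x L_y`,
`R_{yx}⁻¹ R_x R_y` and `R_x⁻¹ L_x` (sending `u` to `a` and `v` to `b`) are automorphisms. -/
theorem result (Q : Type) [Finite Q] (op : Q → Q → Q) (e : Q)
    (hid : ∀ x, op e x = x ∧ op x e = x)
    (hl : ∀ x, Function.Bijective (fun y => op x y))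
    (hr : ∀ x, Function.Bijective (fun y => op y x))
    (hL : ∀ x y u v a b, op (op x y) a = op x (op y u) → op (op x y) b = op x (op y v) →
      op (op x y) (op a b) = op x (op y (op u v)))
    (hR : ∀ x y u v a b, op a (op y x) = op (op u y) x → op b (op y x) = op (op v y) x →
      op (op a b) (op y x) = op (op (op u v) y) x)
    (hT : ∀ x u v a b, op a x = op x u → op b x = op x v → op (op a b) x = op x (op u v))
    (p k : ℕ) (hp : p.Prime) (hk : 1 ≤ k) (hcard : Nat.card Q = p ^ k) :
    ∃ a : Q, a ≠ e ∧ ∀ x y, op (op x a) y = op x (op a y) := by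
  letI : H284Z.ALoop Q :=
    { mul := op
      one := e
      one_mul := fun x => (hid x).1
      mul_one := fun x => (hid x).2
      bijL := hl
      bijR := hr
      autL := hL
      autT := hT }
  exact H921Z.Loop.middle_nucleus (Q := Q) hp hcard (by omega)

end Pool.Agent.Results.MP_20a840_al.AMiddleNucleus
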